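import Pool.Agent.Helper51.SDL.Goals

/-!
# Packet SDL-CYC (MP_fc6b1e_nt)
-/

namespace Pool.Agent.Helper45.SDL.CYC

theorem vec {p : ℕ} [hp : Fact p.Prime] {V : Type} [AddCommGroup V] [Module (ZMod p) V] [Finite V]
    (hd : ∀ θ₁ θ₂ : V →ₗ[ZMod p] ZMod p, ∃ a b : ℕ, (¬ p ∣ a ∨ ¬ p ∣ b) ∧
      ∀ y, (a : ZMod p) * θ₁ y + (b : ZMod p) * θ₂ y = 0) :
    ∃ v : V, ∀ w : V, ∃ c : ZMod p, c • v = w := by
  have hfin : Module.Finite (ZMod p) V := Module.Finite.of_finite
  rw [← finrank_le_one_iff]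
  by_contra hcon
  rw [not_le] at hcon
  let b := Module.finBasis (ZMod p) V
  let i : Fin (Module.finrank (ZMod p) V) := ⟨0, by omega⟩
  let j : Fin (Module.finrank (ZMod p) V) := ⟨1, hcon⟩
  have hij : i ≠ j := by
    intro h
    have := congrArg Fin.val h
    simp [i, j] at this
  obtain ⟨a, c, hac, h⟩ := hd (b.coord i) (b.coord j)
  have ha := h (b i)
  have hc := h (b j)
  simp only [Module.Basis.coord_apply, Module.Basis.repr_self, Finsupp.single_eq_same,
    Finsupp.single_eq_of_ne hij, Finsupp.single_eq_of_ne hij.symm, mul_one, mul_zero, add_zero,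
    zero_add] at ha hc
  rw [ZMod.natCast_eq_zero_iff] at ha hc
  exact hac.elim (fun h => h ha) (fun h => h hc)

/-- A finite abelian group killed by `p ^ k` whose quotient by `p` has a dual of dimension at
most one is cyclic. -/
theorem cyc_of {p : ℕ} [hp : Fact p.Prime] {k : ℕ} {X : Type} [AddCommGroup X] [Finite X]
    (hk : ∀ x : X, (p ^ k : ℕ) • x = 0)
    (hd : ∀ θ₁ θ₂ : X →+ ZMod p, ∃ a b : ℕ, (¬ p ∣ a ∨ ¬ p ∣ b) ∧
      ∀ y, (a : ZMod p) * θ₁ y + (b : ZMod p) * θ₂ y = 0) :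
    ∃ x : X, ∀ y : X, ∃ m : ℕ, y = m • x := by
  let P : AddSubgroup X := (nsmulAddMonoidHom (α := X) p).range
  let V := X ⧸ P
  have hV : ∀ v : V, p • v = 0 := by
    intro v
    obtain ⟨x, rfl⟩ := QuotientAddGroup.mk_surjective v
    rw [← QuotientAddGroup.mk_nsmul]
    exact (QuotientAddGroup.eq_zero_iff _).2 ⟨x, rfl⟩
  let _ : Module (ZMod p) V := AddCommGroup.zmodModule hV
  obtain ⟨v, hv⟩ : ∃ v : V, ∀ w : V, ∃ c : ZMod p, c • v = w := by
    refine vec fun θ₁ θ₂ => ?_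
    obtain ⟨a, c, hac, h⟩ := hd (θ₁.toAddMonoidHom.comp (QuotientAddGroup.mk' P))
      (θ₂.toAddMonoidHom.comp (QuotientAddGroup.mk' P))
    refine ⟨a, c, hac, fun w => ?_⟩
    obtain ⟨y, rfl⟩ := QuotientAddGroup.mk_surjective w
    exact h y
  obtain ⟨x, rfl⟩ := QuotientAddGroup.mk_surjective v
  have h2 : ∀ y : X, ∃ (m : ℕ) (z : X), y = m • x + p • z := by
    intro y
    obtain ⟨c, hc⟩ := hv (QuotientAddGroup.mk y)
    refine ⟨c.val, ?_⟩
    have h3 : c • (QuotientAddGroup.mk x : V) = ((c.val • x : X) : V) := by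
      rw [QuotientAddGroup.mk_nsmul, ← Nat.cast_smul_eq_nsmul (ZMod p), ZMod.natCast_zmod_val]
    rw [h3] at hc
    obtain ⟨z, hz⟩ := (QuotientAddGroup.eq).1 hc
    refine ⟨z, ?_⟩
    have hz' : p • z = -(c.val • x) + y := hz
    rw [hz']
    abel
  have h4 : ∀ (j : ℕ) (y : X), ∃ (m : ℕ) (z : X), y = m • x + (p ^ j) • z := by
    intro j
    induction j with
    | zero => exact fun y => ⟨0, y, by simp⟩
    | succ j ih =>
      intro y
      obtain ⟨m, z, hz⟩ := ih y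
      obtain ⟨m', z', hz'⟩ := h2 z
      refine ⟨m + p ^ j * m', z', ?_⟩
      rw [hz, hz', smul_add, add_smul, mul_smul, smul_smul _ p, pow_succ, add_assoc]
  refine ⟨x, fun y => ?_⟩
  obtain ⟨m, z, hz⟩ := h4 k y
  exact ⟨m, by rw [hz, hk, add_zero]⟩

theorem t : Pool.Agent.Helper51.SDL.S_CYC := by
  intro p hp k Y _ H hH hcard hk hd
  have hf : Finite (Y ⧸ H) := by
    have : H.FiniteIndex := ⟨hH⟩
    infer_instance
  obtain ⟨x, hx⟩ := cyc_of (p := p) (k := k) (X := Y ⧸ H) (fun v => by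
      obtain ⟨y, rfl⟩ := QuotientAddGroup.mk_surjective v
      rw [← QuotientAddGroup.mk_nsmul]
      exact (QuotientAddGroup.eq_zero_iff _).2 (hk y)) (fun θ₁ θ₂ => by
      obtain ⟨a, b, hab, h⟩ := hd (θ₁.comp (QuotientAddGroup.mk' H))
        (θ₂.comp (QuotientAddGroup.mk' H))
        (fun h hh => by
          show θ₁ (QuotientAddGroup.mk' H h) = 0
          rw [show QuotientAddGroup.mk' H h = 0 from (QuotientAddGroup.eq_zero_iff _).2 hh,
            map_zero])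
        (fun h hh => by
          show θ₂ (QuotientAddGroup.mk' H h) = 0
          rw [show QuotientAddGroup.mk' H h = 0 from (QuotientAddGroup.eq_zero_iff _).2 hh,
            map_zero])
      refine ⟨a, b, hab, fun v => ?_⟩
      obtain ⟨y, rfl⟩ := QuotientAddGroup.mk_surjective v
      exact h y)
  have hcyc : IsAddCyclic (Y ⧸ H) := ⟨x, fun y => by
    obtain ⟨m, hm⟩ := hx y
    exact ⟨m, by rw [hm]; simp⟩⟩
  have hc1 : Nat.card (Y ⧸ H) = H.index := rfl
  have hc2 : Nat.card (Y ⧸ H) = p ^ k := by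
    apply le_antisymm _ (hc1 ▸ hcard)
    have hgen : ∀ y : Y ⧸ H, y ∈ AddSubgroup.zmultiples x := fun y => by
      obtain ⟨m, hm⟩ := hx y
      exact ⟨m, by rw [hm]; simp⟩
    have h5 : addOrderOf x = Nat.card (Y ⧸ H) := addOrderOf_eq_card_of_forall_mem_zmultiples hgen
    rw [← h5]
    apply Nat.le_of_dvd (pow_pos hp.out.pos k)
    apply addOrderOf_dvd_of_nsmul_eq_zero
    obtain ⟨y, rfl⟩ := QuotientAddGroup.mk_surjective x
    rw [← QuotientAddGroup.mk_nsmul]
    exact (QuotientAddGroup.eq_zero_iff _).2 (hk y)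
  have e : ZMod (p ^ k) ≃+ Y ⧸ H := hc2 ▸ zmodAddCyclicAddEquiv hcyc
  refine ⟨e.symm.toAddMonoidHom.comp (QuotientAddGroup.mk' H), fun h hh => ?_, ?_⟩
  · show e.symm (QuotientAddGroup.mk' H h) = 0
    rw [show QuotientAddGroup.mk' H h = 0 from (QuotientAddGroup.eq_zero_iff _).2 hh, map_zero]
  · exact e.symm.surjective.comp (QuotientAddGroup.mk'_surjective H)

end Pool.Agent.Helper45.SDL.CYC
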